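import Mathlib

/-! # Numbers `x` with `G x` near a thin set of integers: one interval -/

set_option autoImplicit false

namespace Pool.Agent.H8MT

open MeasureTheory

/-- counting in blocks -/
theorem card_blocks (Y M J : ℕ) (hY : 1 ≤ Y) (c : ℝ) (T : Finset ℕ)
    (hT : ∀ y ∈ T, M < y ∧ y ≤ M + J * Y)
    (hS : ∀ M : ℕ, ∀ U : Finset ℕ, U ⊆ T → (∀ y ∈ U, M < y ∧ y ≤ M + Y) → (U.card : ℝ) ≤ c) :
    (T.card : ℝ) ≤ J * c := by
  classical
  have hsub : T ⊆ (Finset.range J).biUnion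
      (fun j => T.filter (fun y => M + j * Y < y ∧ y ≤ M + j * Y + Y)) := by
    intro y hy
    obtain ⟨h1, h2⟩ := hT y hy
    have hd := Nat.div_add_mod (y - M - 1) Y
    have hm := Nat.mod_lt (y - M - 1) (show 0 < Y by omega)
    have hj : (y - M - 1) / Y < J := by
      rw [Nat.div_lt_iff_lt_mul (by omega)]
      omega
    rw [Finset.mem_biUnion]
    refine ⟨(y - M - 1) / Y, Finset.mem_range.2 hj, Finset.mem_filter.2 ⟨hy, ?_, ?_⟩⟩
    · have : (y - M - 1) / Y * Y = Y * ((y - M - 1) / Y) := mul_comm _ _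
      omega
    · have : (y - M - 1) / Y * Y = Y * ((y - M - 1) / Y) := mul_comm _ _
      omega
  have h1 : T.card ≤ ∑ j ∈ Finset.range J,
      (T.filter (fun y => M + j * Y < y ∧ y ≤ M + j * Y + Y)).card :=
    (Finset.card_le_card hsub).trans Finset.card_biUnion_le
  calc (T.card : ℝ) ≤ ((∑ j ∈ Finset.range J,
      (T.filter (fun y => M + j * Y < y ∧ y ≤ M + j * Y + Y)).card : ℕ) : ℝ) := by exact_mod_cast h1
    _ = ∑ j ∈ Finset.range J,
      ((T.filter (fun y => M + j * Y < y ∧ y ≤ M + j * Y + Y)).card : ℝ) := by push_cast; rfl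
    _ ≤ ∑ _j ∈ Finset.range J, c := Finset.sum_le_sum fun j _ =>
        hS (M + j * Y) _ (Finset.filter_subset _ _) fun y hy => (Finset.mem_filter.1 hy).2
    _ = J * c := by rw [Finset.sum_const, Finset.card_range, nsmul_eq_mul]

/-- **One interval.** -/
theorem vol_bad (a b lam h : ℝ) (G : ℝ → ℝ) (Y : ℕ) (c : ℝ) (S : Set ℕ)
    (hab : a < b) (hlam : 0 < lam) (hY : 1 ≤ Y) (hh : 1 ≤ h) (h1 : h ≤ lam * (b - a))
    (h2 : (Y : ℝ) ≤ lam * (b - a))
    (hG : ∀ x ∈ Set.Icc a b, ∀ y ∈ Set.Icc a b, x ≤ y →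
      lam * (y - x) ≤ G y - G x ∧ G y - G x ≤ 3 * lam * (y - x))
    (hc : 0 ≤ c)
    (hS : ∀ M : ℕ, ∀ T : Finset ℕ, (∀ y ∈ T, y ∈ S ∧ M < y ∧ y ≤ M + Y) → (T.card : ℝ) ≤ c)
    (hS0 : ∀ y ∈ S, 1 ≤ y) :
    volume {x | x ∈ Set.Icc a b ∧ ∃ y ∈ S, |(y : ℝ) - G x| ≤ h} ≤
      ENNReal.ofReal (14 * c * h * (b - a) / Y) := by
  classical
  have hY0 : (0 : ℝ) < Y := by exact_mod_cast hY
  have hl : 0 < b - a := by linarith
  have ha : a ∈ Set.Icc a b := ⟨le_rfl, hab.le⟩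
  have hb : b ∈ Set.Icc a b := ⟨hab.le, le_rfl⟩
  -- the relevant integers
  set U : ℕ := ⌊G b + h⌋₊ with hU
  set T : Finset ℕ := (Finset.range (U + 1)).filter (fun y => y ∈ S ∧ G a - h ≤ (y : ℝ)) with hT
  have hcover : {x | x ∈ Set.Icc a b ∧ ∃ y ∈ S, |(y : ℝ) - G x| ≤ h} ⊆
      ⋃ y ∈ T, {x | x ∈ Set.Icc a b ∧ |(y : ℝ) - G x| ≤ h} := by
    rintro x ⟨hx, y, hy, hxy⟩
    have g1 := (hG a ha x hx hx.1).1
    have g2 := (hG x hx b hb hx.2).1
    have g3 : 0 ≤ lam * (x - a) := mul_nonneg hlam.le (by linarith [hx.1])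
    have g4 : 0 ≤ lam * (b - x) := mul_nonneg hlam.le (by linarith [hx.2])
    obtain ⟨k1, k2⟩ := abs_le.1 hxy
    refine Set.mem_iUnion₂.2 ⟨y, ?_, hx, hxy⟩
    rw [hT, Finset.mem_filter, Finset.mem_range]
    refine ⟨?_, hy, by linarith⟩
    exact Nat.lt_succ_of_le (Nat.le_floor (by linarith))
  -- each piece
  have hpiece : ∀ y : ℕ, volume {x | x ∈ Set.Icc a b ∧ |(y : ℝ) - G x| ≤ h} ≤
      ENNReal.ofReal (2 * h / lam) := by
    intro y
    refine (Real.volume_le_diam _).trans (Metric.ediam_le ?_)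
    have key : ∀ x x' : ℝ, x ∈ Set.Icc a b → x' ∈ Set.Icc a b → |(y : ℝ) - G x| ≤ h →
        |(y : ℝ) - G x'| ≤ h → x ≤ x' → x' - x ≤ 2 * h / lam := by
      intro x x' hx hx' k k' hxx
      have := (hG x hx x' hx' hxx).1
      obtain ⟨k1, k2⟩ := abs_le.1 k
      obtain ⟨k3, k4⟩ := abs_le.1 k'
      rw [le_div_iff₀ hlam]
      linarith
    rintro x ⟨hx, k⟩ x' ⟨hx', k'⟩
    rw [edist_dist, Real.dist_eq]
    apply ENNReal.ofReal_le_ofReal
    rcases le_total x x' with hxx | hxx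
    · rw [abs_sub_comm, abs_of_nonneg (by linarith)]
      exact key x x' hx hx' k k' hxx
    · rw [abs_of_nonneg (by linarith)]
      exact key x' x hx' hx k' k hxx
  -- the number of relevant integers
  have hg := (hG a ha b hb hab.le).2
  set M : ℕ := ⌈G a - h⌉₊ - 1 with hM
  set R : ℝ := 3 * lam * (b - a) + 2 * h + 1 with hR
  have hR0 : 0 ≤ R := by rw [hR]; nlinarith
  set J : ℕ := ⌈R / Y⌉₊ with hJ
  have hMle : G a - h - 1 ≤ M := by
    rcases Nat.eq_zero_or_pos ⌈G a - h⌉₊ with h0 | h0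
    · rw [Nat.ceil_eq_zero] at h0
      have : (0 : ℝ) ≤ M := Nat.cast_nonneg _
      linarith
    · have e1 : ((M : ℕ) : ℝ) = (⌈G a - h⌉₊ : ℝ) - 1 := by
        rw [hM, Nat.cast_sub h0, Nat.cast_one]
      rw [e1]
      have := Nat.le_ceil (G a - h)
      linarith
  have hTcard : (T.card : ℝ) ≤ J * c := by
    refine card_blocks Y M J hY c T ?_ fun M' V hV hV' => hS M' V fun y hy => ?_
    · intro y hy
      rw [hT, Finset.mem_filter, Finset.mem_range] at hy
      obtain ⟨hyU, hyS, hya⟩ := hy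
      have hy1 := hS0 y hyS
      have hy2 : ⌈G a - h⌉₊ ≤ y := Nat.ceil_le.2 hya
      refine ⟨by omega, ?_⟩
      have hyb : (y : ℝ) ≤ G b + h := by
        by_contra hcon
        push Not at hcon
        have hpos : U < y := by
          rw [hU, Nat.floor_lt' (by omega)]
          exact hcon
        omega
      have h5 : (y : ℝ) ≤ M + R := by rw [hR]; linarith
      have h6 : R ≤ J * Y := by
        have := Nat.le_ceil (R / Y)
        rw [div_le_iff₀ hY0] at this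
        exact this
      have h7 : (y : ℝ) ≤ ((M + J * Y : ℕ) : ℝ) := by push_cast; linarith
      exact_mod_cast h7
    · have := hV hy
      rw [hT, Finset.mem_filter] at this
      exact ⟨this.2.1, hV' y hy⟩
  have hJle : (J : ℝ) ≤ 7 * (lam * (b - a)) / Y := by
    have e1 : (J : ℝ) ≤ R / Y + 1 := (Nat.ceil_lt_add_one (by positivity)).le
    have e2 : R / Y + 1 ≤ 7 * (lam * (b - a)) / Y := by
      rw [div_add_one hY0.ne', div_le_div_iff_of_pos_right hY0, hR]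
      nlinarith
    linarith
  have hfinal : (T.card : ℝ) * (2 * h / lam) ≤ 14 * c * h * (b - a) / Y := by
    have e1 : (T.card : ℝ) ≤ 7 * (lam * (b - a)) / Y * c :=
      hTcard.trans (mul_le_mul_of_nonneg_right hJle hc)
    have e2 : 7 * (lam * (b - a)) / Y * c * (2 * h / lam) = 14 * c * h * (b - a) / Y := by
      field_simp
      ring
    rw [← e2]
    exact mul_le_mul_of_nonneg_right e1 (by positivity)
  calc volume {x | x ∈ Set.Icc a b ∧ ∃ y ∈ S, |(y : ℝ) - G x| ≤ h}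
      ≤ volume (⋃ y ∈ T, {x | x ∈ Set.Icc a b ∧ |(y : ℝ) - G x| ≤ h}) := measure_mono hcover
    _ ≤ ∑ y ∈ T, volume {x | x ∈ Set.Icc a b ∧ |(y : ℝ) - G x| ≤ h} :=
        measure_biUnion_finset_le _ _
    _ ≤ ∑ _y ∈ T, ENNReal.ofReal (2 * h / lam) := Finset.sum_le_sum fun y _ => hpiece y
    _ = ENNReal.ofReal (T.card * (2 * h / lam)) := by
        rw [Finset.sum_const, nsmul_eq_mul, ENNReal.ofReal_mul (Nat.cast_nonneg _),
          ENNReal.ofReal_natCast]
    _ ≤ ENNReal.ofReal (14 * c * h * (b - a) / Y) := ENNReal.ofReal_le_ofReal hfinal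

end Pool.Agent.H8MT
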