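import Mathlib
import Pool.Agent.H8SP.Few
import Pool.Agent.H8MT.Vol

/-! # Numbers `x` with `G x` near a base of a tuple -/

set_option autoImplicit false

namespace Pool.Agent.H8MT

open MeasureTheory Filter Pool.Agent.H8SP

theorem Sol.mono {n K : ℕ} {W W' : ℝ} {u : Fin n → ℤ} {v : ℤ} {y : ℕ} (h : Sol K W u v y)
    (hW : W ≤ W') : Sol K W' u v y := by
  obtain ⟨a, e, z, k, h1, h2, h3⟩ := h
  exact ⟨a, e, z, k, h1, fun i => (h2 i).trans hW, h3⟩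

/-- the numbers of one interval with a base nearby -/
theorem vol_sol (n : ℕ) (hn : 2 ≤ n) (ε : ℝ) (hε : 0 < ε) : ∃ δ : ℝ, 0 < δ ∧ ∃ N₀ : ℕ,
    ∀ Y : ℕ, N₀ ≤ Y → 1 ≤ Y → ∀ K : ℕ, 1 ≤ K → ∀ (A : Finset ((Fin n → ℤ) × ℤ)) (W : ℝ),
      W ≤ Real.exp ((Y : ℝ) ^ δ) → ∀ (a b lam h : ℝ) (G : ℝ → ℝ), a < b → 0 < lam → 1 ≤ h →
      h ≤ lam * (b - a) → (Y : ℝ) ≤ lam * (b - a) →
      (∀ x ∈ Set.Icc a b, ∀ y ∈ Set.Icc a b, x ≤ y →
        lam * (y - x) ≤ G y - G x ∧ G y - G x ≤ 3 * lam * (y - x)) →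
      volume {x | x ∈ Set.Icc a b ∧ ∃ y : ℕ, (1 ≤ y ∧ ∃ p ∈ A, Sol K W p.1 p.2 y) ∧
        |(y : ℝ) - G x| ≤ h} ≤
        ENNReal.ofReal (14 * (A.card * (Y : ℝ) ^ (((n : ℝ) - 1) / (K : ℝ) + ε)) * h * (b - a) / Y)
      := by
  classical
  obtain ⟨δ, hδ, N₀, h⟩ := few n hn ε hε
  rw [show ((n - 1 : ℕ) : ℝ) = (n : ℝ) - 1 by rw [Nat.cast_sub (by omega), Nat.cast_one]] at h
  refine ⟨δ, hδ, N₀, fun Y hY hY1 K hK A W hW a b lam hh G hab hlam h1 h2 h3 hG => ?_⟩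
  refine vol_bad a b lam hh G Y (A.card * (Y : ℝ) ^ (((n : ℝ) - 1) / (K : ℝ) + ε))
    {y | 1 ≤ y ∧ ∃ p ∈ A, Sol K W p.1 p.2 y} hab hlam hY1 h1 h2 h3 hG (by positivity) ?_
    fun y hy => hy.1
  intro M T hT
  have hsub : T ⊆ A.biUnion (fun p => T.filter (fun y => Sol K W p.1 p.2 y)) := by
    intro y hy
    obtain ⟨⟨-, p, hp, hs⟩, -⟩ := hT y hy
    exact Finset.mem_biUnion.2 ⟨p, hp, Finset.mem_filter.2 ⟨hy, hs⟩⟩
  have e1 : T.card ≤ ∑ p ∈ A, (T.filter (fun y => Sol K W p.1 p.2 y)).card :=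
    (Finset.card_le_card hsub).trans Finset.card_biUnion_le
  calc (T.card : ℝ) ≤ ((∑ p ∈ A, (T.filter (fun y => Sol K W p.1 p.2 y)).card : ℕ) : ℝ) := by
        exact_mod_cast e1
    _ = ∑ p ∈ A, ((T.filter (fun y => Sol K W p.1 p.2 y)).card : ℝ) := by push_cast; rfl
    _ ≤ ∑ _p ∈ A, (Y : ℝ) ^ (((n : ℝ) - 1) / (K : ℝ) + ε) := by
        refine Finset.sum_le_sum fun p _ => h Y hY K hK M p.1 p.2 _ fun y hy => ?_
        rw [Finset.mem_filter] at hy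
        exact ⟨(hT y hy.1).2.1, (hT y hy.1).2.2, Sol.mono hy.2 hW⟩
    _ = A.card * (Y : ℝ) ^ (((n : ℝ) - 1) / (K : ℝ) + ε) := by
        rw [Finset.sum_const, nsmul_eq_mul]

/-- Borel–Cantelli -/
theorem bc {s : ℕ → Set ℝ} {f : ℕ → ℝ} (hf : Summable f) (hf0 : ∀ n, 0 ≤ f n)
    (h : ∀ᶠ n in atTop, volume (s n) ≤ ENNReal.ofReal (f n)) :
    ∀ᵐ x ∂(volume : Measure ℝ), ∀ᶠ n in atTop, x ∉ s n := by
  obtain ⟨N, hN⟩ := eventually_atTop.1 h
  have h1 : ∀ᵐ x ∂(volume : Measure ℝ), ∀ᶠ n in atTop, x ∉ (if N ≤ n then s n else ∅) := by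
    refine ae_eventually_notMem ?_
    have h2 : ∑' n, volume (if N ≤ n then s n else ∅) ≤ ∑' n, ENNReal.ofReal (f n) := by
      refine ENNReal.tsum_le_tsum fun n => ?_
      by_cases hn : N ≤ n
      · rw [if_pos hn]; exact hN n hn
      · rw [if_neg hn]; simp
    exact ne_top_of_le_ne_top (hf.tsum_ofReal_ne_top) h2
  filter_upwards [h1] with x hx
  filter_upwards [hx, eventually_ge_atTop N] with n hn hn'
  rwa [if_pos hn'] at hn

theorem linear (n : ℕ) (hn : 2 ≤ n) (K : ℕ) (hK : 1 ≤ K) (τ κ κ' : ℝ) (hτ : 0 ≤ τ) (hκ : 0 ≤ κ)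
    (hκ' : 0 ≤ κ') (hlt : τ + κ + κ' < 1 - ((n : ℝ) - 1) / (K : ℝ)) :
    ∃ δ : ℝ, 0 < δ ∧ ∀ (v Y : ℕ → ℝ), (∀ N, 1 ≤ Y N) → (∀ N, Y N ≤ v N) →
      Summable (fun N => (Y N) ^ (-τ)) → ∀ A : ℕ → Finset ((Fin n → ℤ) × ℤ),
      (∀ N, ((A N).card : ℝ) ≤ (Y N) ^ κ') →
      ∀ᵐ α : ℝ, 0 < α → ∀ᶠ N in atTop, ∀ y : ℕ, |(y : ℝ) - α * v N| ≤ (Y N) ^ κ →
        ∀ p ∈ A N, ¬ Sol K (Real.exp ((Y N) ^ δ)) p.1 p.2 y := by
  classical
  have hn1 : (0 : ℝ) ≤ ((n : ℝ) - 1) / (K : ℝ) := by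
    have : (2 : ℝ) ≤ n := by exact_mod_cast hn
    exact div_nonneg (by linarith) (Nat.cast_nonneg _)
  set ε : ℝ := 1 - ((n : ℝ) - 1) / (K : ℝ) - τ - κ - κ' with hε
  have hε0 : 0 < ε := by linarith
  obtain ⟨δ, hδ, N₀, h⟩ := vol_sol n hn ε hε0
  refine ⟨δ / 2, by positivity, fun v Y hY hYv hsum A hA => ?_⟩
  -- `Y N` tends to infinity
  have hinf : ∀ X : ℝ, 1 ≤ X → ∀ᶠ N in atTop, X < Y N := by
    intro X hX
    have h1 : ∀ᶠ N in atTop, (Y N) ^ (-τ) < X ^ (-τ) :=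
      (tendsto_order.1 hsum.tendsto_atTop_zero).2 _ (Real.rpow_pos_of_pos (by linarith) _)
    filter_upwards [h1] with N hN
    by_contra hcon
    push Not at hcon
    have := Real.rpow_le_rpow_of_nonpos (by linarith [hY N]) hcon (show -τ ≤ 0 by linarith)
    linarith
  -- the bad sets
  have hbad : ∀ a : ℝ, 0 < a → ∀ᵐ x ∂(volume : Measure ℝ), ∀ᶠ N in atTop,
      x ∉ {x | x ∈ Set.Icc a (a + 1) ∧ ∃ y : ℕ, (1 ≤ y ∧ ∃ p ∈ A N,
        Sol K (Real.exp ((Y N) ^ (δ / 2))) p.1 p.2 y) ∧ |(y : ℝ) - x * v N| ≤ (Y N) ^ κ} := by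
    intro a ha
    refine bc (f := fun N => 28 * (Y N) ^ (-τ)) (hsum.mul_left 28)
      (fun N => by have := hY N; positivity) ?_
    filter_upwards [hinf (N₀ + 4) (by linarith [Nat.cast_nonneg (α := ℝ) N₀])] with N hN
    have hY1 := hY N
    have hY0 : 0 < Y N := by linarith
    set Z : ℕ := ⌊Y N⌋₊ with hZ
    have hN₀ : (0 : ℝ) ≤ N₀ := Nat.cast_nonneg _
    have hZle : (Z : ℝ) ≤ Y N := Nat.floor_le hY0.le
    have hZlt : Y N < Z + 1 := Nat.lt_floor_add_one _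
    have hZN : N₀ ≤ Z := Nat.le_floor (by linarith)
    have hZ1 : 1 ≤ Z := Nat.le_floor (by push_cast; linarith)
    have hZ3 : (3 : ℝ) ≤ Z := by linarith
    have hZhalf : Y N / 2 ≤ Z := by linarith
    have hW : Real.exp ((Y N) ^ (δ / 2)) ≤ Real.exp ((Z : ℝ) ^ δ) := by
      apply Real.exp_le_exp.2
      have e1 : (Y N) ^ (δ / 2) = (Real.sqrt (Y N)) ^ δ := by
        rw [Real.sqrt_eq_rpow, ← Real.rpow_mul hY0.le]
        congr 1
        ring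
      rw [e1]
      apply Real.rpow_le_rpow (Real.sqrt_nonneg _) _ hδ.le
      refine le_trans ?_ hZhalf
      rw [Real.sqrt_le_left (by positivity)]
      nlinarith
    have hκ1 : κ ≤ 1 := by linarith
    have hh1 : 1 ≤ (Y N) ^ κ := Real.one_le_rpow hY1 hκ
    have hhv : (Y N) ^ κ ≤ v N := by
      refine le_trans ?_ (hYv N)
      calc (Y N) ^ κ ≤ (Y N) ^ (1 : ℝ) := Real.rpow_le_rpow_of_exponent_le hY1 hκ1
        _ = Y N := Real.rpow_one _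
    have hv0 : 0 < v N := by linarith [hYv N]
    refine (h Z hZN hZ1 K hK (A N) _ hW a (a + 1) (v N) ((Y N) ^ κ) (fun x => x * v N)
      (by linarith) hv0 hh1 (by rw [add_sub_cancel_left, mul_one]; exact hhv)
      (by rw [add_sub_cancel_left, mul_one]; exact hZle.trans (hYv N)) ?_).trans ?_
    · intro x _ y _ hxy
      constructor
      · exact le_of_eq (by ring)
      · have : 0 ≤ v N * (y - x) := mul_nonneg hv0.le (by linarith)
        nlinarith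
    · apply ENNReal.ofReal_le_ofReal
      rw [add_sub_cancel_left, mul_one]
      have hZ0 : (0 : ℝ) < Z := by linarith
      set q : ℝ := ((n : ℝ) - 1) / (K : ℝ) + ε with hq
      have hq1 : q - 1 = -(τ + κ + κ') := by rw [hq, hε]; ring
      have e2 : (Z : ℝ) ^ q / Z ≤ 2 * (Y N) ^ (q - 1) := by
        have e3 : (Z : ℝ) ^ q / Z = (Z : ℝ) ^ (q - 1) := by
          rw [Real.rpow_sub hZ0, Real.rpow_one]
        rw [e3]
        calc (Z : ℝ) ^ (q - 1) ≤ (Y N / 2) ^ (q - 1) :=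
              Real.rpow_le_rpow_of_nonpos (by positivity) hZhalf (by rw [hq1]; linarith)
          _ = (Y N) ^ (q - 1) * 2 ^ (1 - q) := by
              rw [Real.div_rpow hY0.le (by norm_num), div_eq_mul_inv, ← Real.rpow_neg (by norm_num)]
              congr 2
              ring
          _ ≤ (Y N) ^ (q - 1) * 2 := by
              have : (2 : ℝ) ^ (1 - q) ≤ 2 ^ (1 : ℝ) :=
                Real.rpow_le_rpow_of_exponent_le (by norm_num) (by rw [hq]; linarith)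
              rw [Real.rpow_one] at this
              gcongr
          _ = _ := mul_comm _ _
      calc 14 * (((A N).card : ℝ) * (Z : ℝ) ^ q) * (Y N) ^ κ / Z
          = 14 * ((A N).card : ℝ) * (Y N) ^ κ * ((Z : ℝ) ^ q / Z) := by ring
        _ ≤ 14 * (Y N) ^ κ' * (Y N) ^ κ * (2 * (Y N) ^ (q - 1)) := by
            have := hA N
            gcongr
        _ = 28 * ((Y N) ^ κ' * (Y N) ^ κ * (Y N) ^ (q - 1)) := by ring
        _ = 28 * (Y N) ^ (-τ) := by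
            rw [← Real.rpow_add hY0, ← Real.rpow_add hY0, hq1]
            congr 2
            ring
  have hall : ∀ᵐ x ∂(volume : Measure ℝ), ∀ i j : ℕ, ∀ᶠ N in atTop,
      x ∉ {x | x ∈ Set.Icc (1 / ((i : ℝ) + 1) + j) (1 / ((i : ℝ) + 1) + j + 1) ∧
        ∃ y : ℕ, (1 ≤ y ∧ ∃ p ∈ A N,
        Sol K (Real.exp ((Y N) ^ (δ / 2))) p.1 p.2 y) ∧ |(y : ℝ) - x * v N| ≤ (Y N) ^ κ} := by
    rw [ae_all_iff]
    intro i
    rw [ae_all_iff]
    intro j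
    exact hbad _ (by positivity)
  filter_upwards [hall] with α hα hα0
  obtain ⟨i, hi⟩ := exists_nat_one_div_lt hα0
  set j : ℕ := ⌊α - 1 / ((i : ℝ) + 1)⌋₊ with hj
  have hj1 : (j : ℝ) ≤ α - 1 / ((i : ℝ) + 1) := Nat.floor_le (by linarith)
  have hj2 : α - 1 / ((i : ℝ) + 1) < j + 1 := Nat.lt_floor_add_one _
  have hκ1 : κ < 1 := by linarith
  have hzero : ∀ᶠ N in atTop, (Y N) ^ κ < α * Y N := by
    have h1 := hinf (max 1 ((1 / α) ^ (1 / (1 - κ)))) (le_max_left _ _)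
    filter_upwards [h1] with N hN
    have hY0 : 0 < Y N := by linarith [hY N]
    have h2 : (1 / α) ^ (1 / (1 - κ)) < Y N := (le_max_right _ _).trans_lt hN
    have h3 : 1 / α < (Y N) ^ (1 - κ) := by
      have := Real.rpow_lt_rpow (Real.rpow_nonneg (by positivity) _) h2
        (show 0 < 1 - κ by linarith)
      rwa [← Real.rpow_mul (by positivity), one_div_mul_cancel (by linarith), Real.rpow_one] at this
    have h4 : (Y N) = (Y N) ^ κ * (Y N) ^ (1 - κ) := by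
      rw [← Real.rpow_add hY0]
      conv_lhs => rw [← Real.rpow_one (Y N)]
      congr 1
      ring
    have h5 : 0 < (Y N) ^ κ := Real.rpow_pos_of_pos hY0 _
    rw [div_lt_iff₀ hα0] at h3
    have h6 : (Y N) ^ κ * 1 < (Y N) ^ κ * ((Y N) ^ (1 - κ) * α) := mul_lt_mul_of_pos_left h3 h5
    calc (Y N) ^ κ = (Y N) ^ κ * 1 := (mul_one _).symm
      _ < (Y N) ^ κ * ((Y N) ^ (1 - κ) * α) := h6
      _ = α * ((Y N) ^ κ * (Y N) ^ (1 - κ)) := by ring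
      _ = α * Y N := by rw [← h4]
  filter_upwards [hα i j, hzero] with N hN hN0 y hy p hp hs
  apply hN
  refine ⟨⟨by linarith, by linarith⟩, y, ⟨?_, p, hp, hs⟩, hy⟩
  by_contra hcon
  have hy0 : y = 0 := by omega
  rw [hy0, Nat.cast_zero, zero_sub, abs_neg] at hy
  have h1 := le_abs_self (α * v N)
  have h2 : α * Y N ≤ α * v N := mul_le_mul_of_nonneg_left (hYv N) hα0.le
  linarith

end Pool.Agent.H8MT
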