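import Mathlib
import Pool.Agent.H8MT.Lin

/-! # Powers of almost all real numbers -/

set_option autoImplicit false

namespace Pool.Agent.H8MT

open MeasureTheory Filter Pool.Agent.H8SP

/-- all vectors of coefficients of absolute value at most `H` -/
noncomputable def box (n H : ℕ) : Finset ((Fin n → ℤ) × ℤ) :=
  (Fintype.piFinset fun _ : Fin n => Finset.Icc (-(H : ℤ)) H) ×ˢ Finset.Icc (-(H : ℤ)) H

theorem mem_box {n H : ℕ} {u : Fin n → ℤ} {v : ℤ} (hu : ∀ i, |u i| ≤ (H : ℤ)) (hv : |v| ≤ (H : ℤ)) :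
    (u, v) ∈ box n H := by
  rw [box, Finset.mem_product, Fintype.mem_piFinset]
  exact ⟨fun i => Finset.mem_Icc.2 (abs_le.1 (hu i)), Finset.mem_Icc.2 (abs_le.1 hv)⟩

theorem card_box (n H : ℕ) : (box n H).card = (2 * H + 1) ^ (n + 1) := by
  have h : (Finset.Icc (-(H : ℤ)) H).card = 2 * H + 1 := by
    rw [Int.card_Icc]
    omega
  rw [box, Finset.card_product, Fintype.card_piFinset, h]
  simp only [Finset.prod_const, Finset.card_univ, Fintype.card_fin]
  ring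

theorem card_box_le (n H : ℕ) (hH : 1 ≤ H) : ((box n H).card : ℝ) ≤ 3 ^ (n + 1) * (H : ℝ) ^ (n + 1) := by
  rw [card_box, ← mul_pow]
  push_cast
  have : (1 : ℝ) ≤ H := by exact_mod_cast hH
  gcongr
  linarith

/-- differences of powers -/
theorem pow_diff {N : ℕ} (hN : 1 ≤ N) {α₀ x y : ℝ} (h1 : 1 ≤ α₀) (hx : α₀ ≤ x) (hxy : x ≤ y)
    (hy : y ≤ α₀ + 1 / N) :
    N * α₀ ^ (N - 1) * (y - x) ≤ y ^ N - x ^ N ∧ y ^ N - x ^ N ≤ 3 * (N * α₀ ^ (N - 1)) * (y - x) := by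
  have hN0 : (0 : ℝ) < N := by exact_mod_cast hN
  have h0 : 0 ≤ y - x := by linarith
  have e := geom_sum₂_mul y x N
  have hup : (1 + 1 / (N : ℝ)) ^ (N - 1) ≤ 3 := by
    calc (1 + 1 / (N : ℝ)) ^ (N - 1) ≤ (1 + 1 / (N : ℝ)) ^ N := by
          apply pow_le_pow_right₀ _ (Nat.sub_le _ _)
          have : 0 < 1 / (N : ℝ) := by positivity
          linarith
      _ ≤ (Real.exp (1 / N)) ^ N := by
          apply pow_le_pow_left₀ (by positivity)
          have := Real.add_one_le_exp (1 / (N : ℝ))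
          linarith
      _ = Real.exp 1 := by
          rw [← Real.exp_nat_mul, mul_one_div_cancel hN0.ne']
      _ ≤ 3 := by
          have := Real.exp_one_lt_d9
          linarith
  have hyu : y ≤ α₀ * (1 + 1 / N) := by
    have : 1 / (N : ℝ) ≤ α₀ * (1 / N) := by
      have : 0 < 1 / (N : ℝ) := by positivity
      nlinarith
    linarith
  have term : ∀ i ∈ Finset.range N, α₀ ^ (N - 1) ≤ y ^ i * x ^ (N - 1 - i) ∧
      y ^ i * x ^ (N - 1 - i) ≤ 3 * α₀ ^ (N - 1) := by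
    intro i hi
    rw [Finset.mem_range] at hi
    have hsplit : N - 1 = i + (N - 1 - i) := by omega
    constructor
    · calc α₀ ^ (N - 1) = α₀ ^ i * α₀ ^ (N - 1 - i) := by rw [← pow_add, ← hsplit]
        _ ≤ y ^ i * x ^ (N - 1 - i) := by
            have h9 : α₀ ≤ y := hx.trans hxy
            have h10 : 0 ≤ α₀ := by linarith
            have h11 : 0 ≤ y := h10.trans h9
            gcongr
    · calc y ^ i * x ^ (N - 1 - i) ≤ y ^ i * y ^ (N - 1 - i) := by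
            have : 0 ≤ x := by linarith
            have : 0 ≤ y := by linarith
            gcongr
        _ = y ^ (N - 1) := by rw [← pow_add, ← hsplit]
        _ ≤ (α₀ * (1 + 1 / N)) ^ (N - 1) := pow_le_pow_left₀ (by linarith) hyu _
        _ = α₀ ^ (N - 1) * (1 + 1 / N) ^ (N - 1) := mul_pow _ _ _
        _ ≤ α₀ ^ (N - 1) * 3 := by gcongr
        _ = 3 * α₀ ^ (N - 1) := mul_comm _ _
  have hlow : N * α₀ ^ (N - 1) ≤ ∑ i ∈ Finset.range N, y ^ i * x ^ (N - 1 - i) := by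
    calc N * α₀ ^ (N - 1) = ∑ _i ∈ Finset.range N, α₀ ^ (N - 1) := by
          rw [Finset.sum_const, Finset.card_range, nsmul_eq_mul]
      _ ≤ _ := Finset.sum_le_sum fun i hi => (term i hi).1
  have hupp : ∑ i ∈ Finset.range N, y ^ i * x ^ (N - 1 - i) ≤ 3 * (N * α₀ ^ (N - 1)) := by
    calc ∑ i ∈ Finset.range N, y ^ i * x ^ (N - 1 - i)
        ≤ ∑ _i ∈ Finset.range N, 3 * α₀ ^ (N - 1) := Finset.sum_le_sum fun i hi => (term i hi).2
      _ = _ := by rw [Finset.sum_const, Finset.card_range, nsmul_eq_mul]; ring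
  rw [← e]
  exact ⟨mul_le_mul_of_nonneg_right hlow h0, mul_le_mul_of_nonneg_right hupp h0⟩

theorem powers_gen (n : ℕ) (hn : 2 ≤ n) (K : ℕ) (hK : n ≤ K) (β : ℕ → ℝ) (hβ : ∀ N, 1 ≤ β N)
    (B : ℕ) (V : ℕ → Finset ((Fin n → ℤ) × ℤ)) (hV : ∀ᶠ N : ℕ in atTop, ((V N).card : ℝ) ≤ (N : ℝ) ^ B) :
    ∀ᵐ α : ℝ, 1 < α → ∀ᶠ N : ℕ in atTop, ∀ y : ℕ,
      |(y : ℝ) - β N * α ^ N| ≤ (N : ℝ) ^ B → ∀ p ∈ V N,
          ¬ Sol K (Real.exp ((N : ℝ) ^ B)) p.1 p.2 y := by
  classical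
  have hK0 : (0 : ℝ) < K := by exact_mod_cast (show 0 < K by omega)
  set θ : ℝ := 1 - ((n : ℝ) - 1) / (K : ℝ) with hθ
  have hθ0 : 0 < θ := by
    rw [hθ, sub_pos, div_lt_one hK0]
    have : (n : ℝ) ≤ K := by exact_mod_cast hK
    linarith
  obtain ⟨δ, hδ, N₀, h⟩ := vol_sol n hn (θ / 2) (by positivity)
  have hbad : ∀ (a : ℝ), 1 < a → ∀ᵐ x ∂(volume : Measure ℝ), ∀ᶠ N : ℕ in atTop,
      x ∉ {x | x ∈ Set.Icc a (a + 1) ∧ ∃ y : ℕ, (1 ≤ y ∧ ∃ p ∈ V N,
        Sol K (Real.exp ((N : ℝ) ^ B)) p.1 p.2 y) ∧ |(y : ℝ) - β N * x ^ N| ≤ (N : ℝ) ^ B} := by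
    intro a ha
    obtain ⟨A, hA⟩ := exists_nat_ge (max ((B * 2 + 2) / (θ / 2)) (B / δ) + N₀ + 1)
    have hN₀ : (0 : ℝ) ≤ N₀ := Nat.cast_nonneg _
    have hA1 : (B : ℝ) * 2 + 2 ≤ A * (θ / 2) := by
      have : ((B : ℝ) * 2 + 2) / (θ / 2) ≤ A := by
        linarith [le_max_left (((B : ℝ) * 2 + 2) / (θ / 2)) (B / δ)]
      rwa [div_le_iff₀ (by positivity)] at this
    have hA2 : (B : ℝ) ≤ A * δ := by
      have : (B : ℝ) / δ ≤ A := by
        linarith [le_max_right (((B : ℝ) * 2 + 2) / (θ / 2)) (B / δ)]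
      rwa [div_le_iff₀ hδ] at this
    have hA3 : N₀ + 1 ≤ A := by
      have h0 : (0 : ℝ) ≤ max (((B : ℝ) * 2 + 2) / (θ / 2)) (B / δ) :=
        le_max_of_le_right (by positivity)
      have : ((N₀ + 1 : ℕ) : ℝ) ≤ A := by push_cast; linarith
      exact_mod_cast this
    have hgrow : ∀ C : ℕ, ∀ᶠ N : ℕ in atTop, (N : ℝ) ^ C ≤ a ^ (N - 1) := by
      intro C
      have h1 := (isLittleO_pow_const_const_pow_of_one_lt (R := ℝ) C ha)
      have h2 := h1.bound (show (0 : ℝ) < 1 / a by positivity)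
      filter_upwards [h2, eventually_ge_atTop 1] with N hN hN1
      rw [Real.norm_of_nonneg (by positivity), Real.norm_of_nonneg (by positivity)] at hN
      refine hN.trans (le_of_eq ?_)
      obtain ⟨m, rfl⟩ : ∃ m, N = m + 1 := ⟨N - 1, by omega⟩
      rw [Nat.add_sub_cancel, pow_succ]
      field_simp
    have hsum : Summable (fun N : ℕ => 14 * (N : ℝ) ^ (-2 : ℝ)) :=
      (Real.summable_nat_rpow.2 (by norm_num)).mul_left _
    refine bc hsum (fun N => by positivity) ?_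
    filter_upwards [hgrow B, hgrow A, eventually_ge_atTop 2, hV] with N hB hAN hN2 hVN
    have hN0 : (0 : ℝ) < N := by exact_mod_cast (show 0 < N by omega)
    have hN1 : (1 : ℝ) ≤ N := by exact_mod_cast (show 1 ≤ N by omega)
    set W : ℝ := Real.exp ((N : ℝ) ^ B) with hW
    set Y : ℕ := N ^ A with hY
    have hYN : N₀ ≤ Y := by
      have : N₀ < 2 ^ N₀ := Nat.lt_two_pow_self
      calc N₀ ≤ 2 ^ N₀ := this.le
        _ ≤ N ^ N₀ := Nat.pow_le_pow_left hN2 _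
        _ ≤ N ^ A := Nat.pow_le_pow_right (by omega) (by omega)
    have hY1 : 1 ≤ Y := Nat.one_le_pow _ _ (by omega)
    have hYc : (Y : ℝ) = (N : ℝ) ^ A := by rw [hY]; push_cast; rfl
    have hWle : W ≤ Real.exp ((Y : ℝ) ^ δ) := by
      rw [hW, hYc]
      apply Real.exp_le_exp.2
      rw [← Real.rpow_natCast (N : ℝ) B, ← Real.rpow_natCast (N : ℝ) A, ← Real.rpow_mul hN0.le]
      exact Real.rpow_le_rpow_of_exponent_le hN1 hA2
    -- pieces
    have hpiece : ∀ i : ℕ, volume {x | x ∈ Set.Icc (a + i / N) (a + i / N + 1 / N) ∧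
        ∃ y : ℕ, (1 ≤ y ∧ ∃ p ∈ V N, Sol K W p.1 p.2 y) ∧
          |(y : ℝ) - β N * x ^ N| ≤ (N : ℝ) ^ B} ≤
        ENNReal.ofReal (14 * (N : ℝ) ^ (-2 : ℝ) / N) := by
      intro i
      set α₀ : ℝ := a + i / N with hα₀
      have hi0 : (0 : ℝ) ≤ i / N := by positivity
      have hα₀1 : 1 ≤ α₀ := by linarith
      have hβ0 : 0 < β N := by linarith [hβ N]
      have hlam : (β N * (N * α₀ ^ (N - 1))) * (1 / N) = β N * α₀ ^ (N - 1) := by
        field_simp
      have hbig : a ^ (N - 1) ≤ β N * α₀ ^ (N - 1) := by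
        calc a ^ (N - 1) ≤ α₀ ^ (N - 1) := by gcongr; linarith
          _ = 1 * α₀ ^ (N - 1) := (one_mul _).symm
          _ ≤ β N * α₀ ^ (N - 1) := by
              have := hβ N
              gcongr
      refine (h Y hYN hY1 K (by omega) (V N) W hWle α₀ (α₀ + 1 / N)
        (β N * (N * α₀ ^ (N - 1))) ((N : ℝ) ^ B) (fun x => β N * x ^ N)
        (by have : 0 < 1 / (N : ℝ) := by positivity
            linarith) (by positivity) (one_le_pow₀ hN1)
        (by rw [add_sub_cancel_left, hlam]; exact hB.trans hbig)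
        (by rw [add_sub_cancel_left, hlam, hYc]; exact hAN.trans hbig) ?_).trans ?_
      · intro x hx y hy hxy
        obtain ⟨k1, k2⟩ := pow_diff (N := N) (by omega) hα₀1 hx.1 hxy hy.2
        constructor
        · calc β N * (N * α₀ ^ (N - 1)) * (y - x) = β N * (N * α₀ ^ (N - 1) * (y - x)) := by ring
            _ ≤ β N * (y ^ N - x ^ N) := mul_le_mul_of_nonneg_left k1 hβ0.le
            _ = _ := by ring
        · calc β N * y ^ N - β N * x ^ N = β N * (y ^ N - x ^ N) := by ring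
            _ ≤ β N * (3 * (N * α₀ ^ (N - 1)) * (y - x)) := mul_le_mul_of_nonneg_left k2 hβ0.le
            _ = _ := by ring
      · apply ENNReal.ofReal_le_ofReal
        rw [add_sub_cancel_left]
        have hq : ((n : ℝ) - 1) / (K : ℝ) + θ / 2 = 1 - θ / 2 := by rw [hθ]; ring
        rw [hq]
        have e1 : (Y : ℝ) ^ (1 - θ / 2) / Y = (N : ℝ) ^ (-(A * (θ / 2)) : ℝ) := by
          have hY0 : (0 : ℝ) < Y := by exact_mod_cast hY1
          rw [Real.rpow_sub hY0, Real.rpow_one, hYc, ← Real.rpow_natCast (N : ℝ) A,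
            ← Real.rpow_mul hN0.le, Real.rpow_neg hN0.le]
          have : (N : ℝ) ^ (A : ℝ) ≠ 0 := (Real.rpow_pos_of_pos hN0 _).ne'
          field_simp
        have e2 : (N : ℝ) ^ (-(A * (θ / 2)) : ℝ) ≤ (N : ℝ) ^ (-((B : ℝ) * 2 + 2)) :=
          Real.rpow_le_rpow_of_exponent_le hN1 (by linarith)
        have e3 : (N : ℝ) ^ B * (N : ℝ) ^ B = (N : ℝ) ^ ((B : ℝ) * 2) := by
          rw [← pow_add, ← Real.rpow_natCast]
          congr 1
          push_cast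
          ring
        calc 14 * (((V N).card : ℝ) * (Y : ℝ) ^ (1 - θ / 2)) * (N : ℝ) ^ B * (1 / N) / Y
            = 14 * ((V N).card : ℝ) * (N : ℝ) ^ B * ((Y : ℝ) ^ (1 - θ / 2) / Y) / N := by
              ring
          _ ≤ 14 * (N : ℝ) ^ B * (N : ℝ) ^ B *
              (N : ℝ) ^ (-((B : ℝ) * 2 + 2)) / N := by
              rw [e1]
              gcongr
          _ = 14 * (((N : ℝ) ^ B * (N : ℝ) ^ B) *
              (N : ℝ) ^ (-((B : ℝ) * 2 + 2))) / N := by ring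
          _ = 14 * (N : ℝ) ^ (-2 : ℝ) / N := by
              rw [e3, ← Real.rpow_add hN0]
              congr 3
              ring
    have hcov : {x | x ∈ Set.Icc a (a + 1) ∧ ∃ y : ℕ, (1 ≤ y ∧ ∃ p ∈ V N,
        Sol K W p.1 p.2 y) ∧ |(y : ℝ) - β N * x ^ N| ≤ (N : ℝ) ^ B} ⊆
        ⋃ i ∈ Finset.range N, {x | x ∈ Set.Icc (a + i / N) (a + i / N + 1 / N) ∧
          ∃ y : ℕ, (1 ≤ y ∧ ∃ p ∈ V N, Sol K W p.1 p.2 y) ∧
          |(y : ℝ) - β N * x ^ N| ≤ (N : ℝ) ^ B} := by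
      rintro x ⟨⟨hx1, hx2⟩, hx3⟩
      have hx0 : 0 ≤ (x - a) * N := mul_nonneg (by linarith) hN0.le
      rcases lt_or_ge ⌊(x - a) * N⌋₊ N with hlt | hge
      · refine Set.mem_iUnion₂.2 ⟨⌊(x - a) * N⌋₊, Finset.mem_range.2 hlt, ⟨?_, ?_⟩, hx3⟩
        · have := Nat.floor_le hx0
          rw [← le_sub_iff_add_le', div_le_iff₀ hN0]
          exact this
        · have := Nat.lt_floor_add_one ((x - a) * N)
          rw [add_assoc, ← sub_le_iff_le_add', ← add_div, le_div_iff₀ hN0]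
          exact this.le
      · have h5 : (N : ℝ) ≤ (x - a) * N := by
          have := Nat.floor_le hx0
          have h6 : (N : ℝ) ≤ ⌊(x - a) * N⌋₊ := by exact_mod_cast hge
          linarith
        have h6 : x = a + 1 := by
          have : 1 ≤ x - a := by
            by_contra hcon
            push Not at hcon
            nlinarith
          linarith
        have h7 : (((N - 1 : ℕ) : ℕ) : ℝ) = (N : ℝ) - 1 := by
          rw [Nat.cast_sub (by omega), Nat.cast_one]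
        refine Set.mem_iUnion₂.2 ⟨N - 1, Finset.mem_range.2 (by omega), ⟨?_, ?_⟩, hx3⟩
        · rw [h6, h7]
          have : ((N : ℝ) - 1) / N ≤ 1 := by rw [div_le_one hN0]; linarith
          linarith
        · rw [h6, h7]
          have : ((N : ℝ) - 1) / N + 1 / N = 1 := by field_simp; ring
          linarith
    calc volume {x | x ∈ Set.Icc a (a + 1) ∧ ∃ y : ℕ, (1 ≤ y ∧ ∃ p ∈ V N,
        Sol K W p.1 p.2 y) ∧ |(y : ℝ) - β N * x ^ N| ≤ (N : ℝ) ^ B}
        ≤ _ := measure_mono hcov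
      _ ≤ _ := measure_biUnion_finset_le _ _
      _ ≤ ∑ _i ∈ Finset.range N, ENNReal.ofReal (14 * (N : ℝ) ^ (-2 : ℝ) / N) :=
          Finset.sum_le_sum fun i _ => hpiece i
      _ = ENNReal.ofReal (14 * (N : ℝ) ^ (-2 : ℝ)) := by
          rw [Finset.sum_const, Finset.card_range, nsmul_eq_mul, ← ENNReal.ofReal_natCast,
            ← ENNReal.ofReal_mul hN0.le]
          congr 1
          field_simp
  have hall : ∀ᵐ x ∂(volume : Measure ℝ), ∀ i j : ℕ, ∀ᶠ N : ℕ in atTop,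
      x ∉ {x | x ∈ Set.Icc (1 + 1 / ((i : ℝ) + 1) + j) (1 + 1 / ((i : ℝ) + 1) + j + 1) ∧
        ∃ y : ℕ, (1 ≤ y ∧ ∃ p ∈ V N,
        Sol K (Real.exp ((N : ℝ) ^ B)) p.1 p.2 y) ∧ |(y : ℝ) - β N * x ^ N| ≤ (N : ℝ) ^ B} := by
    rw [ae_all_iff]
    intro i
    rw [ae_all_iff]
    intro j
    refine hbad _ ?_
    have h1 : (0 : ℝ) < 1 / ((i : ℝ) + 1) := by positivity
    have h2 : (0 : ℝ) ≤ j := Nat.cast_nonneg _
    linarith
  filter_upwards [hall] with α hα hα1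
  obtain ⟨i, hi⟩ := exists_nat_one_div_lt (show 0 < α - 1 by linarith)
  set j : ℕ := ⌊α - (1 + 1 / ((i : ℝ) + 1))⌋₊ with hj
  have hj1 : (j : ℝ) ≤ α - (1 + 1 / ((i : ℝ) + 1)) := Nat.floor_le (by linarith)
  have hj2 : α - (1 + 1 / ((i : ℝ) + 1)) < j + 1 := Nat.lt_floor_add_one _
  have hgrow : ∀ᶠ N : ℕ in atTop, (N : ℝ) ^ B < α ^ N := by
    have h1 := (isLittleO_pow_const_const_pow_of_one_lt (R := ℝ) B hα1)
    have h2 := h1.bound (show (0 : ℝ) < 1 / 2 by norm_num)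
    filter_upwards [h2] with N hN
    rw [Real.norm_of_nonneg (by positivity), Real.norm_of_nonneg (by positivity)] at hN
    have : 0 < α ^ N := by positivity
    linarith
  filter_upwards [hα i j, hgrow] with N hN hN0 y hy p hp hs
  apply hN
  refine ⟨⟨by linarith, by linarith⟩, y, ⟨?_, p, hp, hs⟩, hy⟩
  by_contra hcon
  have hy0 : y = 0 := by omega
  rw [hy0, Nat.cast_zero, zero_sub, abs_neg] at hy
  have h1 := le_abs_self (β N * α ^ N)
  have h3 : 0 < α ^ N := by positivity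
  have h2 : 1 * α ^ N ≤ β N * α ^ N := mul_le_mul_of_nonneg_right (hβ N) h3.le
  linarith

theorem card_box_ev (n B : ℕ) :
    ∀ᶠ N : ℕ in atTop, ((box n (N ^ B)).card : ℝ) ≤ (N : ℝ) ^ ((B + 2) * (n + 1)) := by
  filter_upwards [eventually_ge_atTop 2] with N hN2
  have hNr : (2 : ℝ) ≤ N := by exact_mod_cast hN2
  have h1 := card_box_le n (N ^ B) (Nat.one_le_pow _ _ (by omega))
  have h2 : (3 : ℝ) ≤ (N : ℝ) ^ 2 := by nlinarith
  calc ((box n (N ^ B)).card : ℝ) ≤ 3 ^ (n + 1) * ((N ^ B : ℕ) : ℝ) ^ (n + 1) := h1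
    _ ≤ ((N : ℝ) ^ 2) ^ (n + 1) * ((N ^ B : ℕ) : ℝ) ^ (n + 1) := by gcongr
    _ = (N : ℝ) ^ ((B + 2) * (n + 1)) := by
        push_cast
        rw [← pow_mul, ← pow_mul, ← pow_add]
        congr 1
        ring

theorem powers (n : ℕ) (hn : 2 ≤ n) (K : ℕ) (hK : n ≤ K) (β : ℕ → ℝ) (hβ : ∀ N, 1 ≤ β N) :
    ∀ᵐ α : ℝ, 1 < α → ∀ B : ℕ, ∀ᶠ N : ℕ in atTop, ∀ y : ℕ,
      |(y : ℝ) - β N * α ^ N| ≤ (N : ℝ) ^ B → ∀ (u : Fin n → ℤ) (v : ℤ),
        (∀ i, |u i| ≤ (N : ℤ) ^ B) → |v| ≤ (N : ℤ) ^ B →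
          ¬ Sol K (Real.exp ((N : ℝ) ^ B)) u v y := by
  have H := ae_all_iff.2 (fun B : ℕ => powers_gen n hn K hK β hβ (B + (B + 2) * (n + 1))
    (fun N => box n (N ^ B)) (by
      filter_upwards [card_box_ev n B, eventually_ge_atTop 1] with N hN hN1
      refine hN.trans (pow_le_pow_right₀ (by exact_mod_cast hN1) (by omega))))
  filter_upwards [H] with α hα h1 B
  filter_upwards [hα B h1, eventually_ge_atTop 1] with N hN hN1 y hy u v hu hv hs
  have hle : (N : ℝ) ^ B ≤ (N : ℝ) ^ (B + (B + 2) * (n + 1)) :=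
    pow_le_pow_right₀ (by exact_mod_cast hN1) (by omega)
  exact hN y (hy.trans hle) (u, v) (mem_box (by exact_mod_cast hu) (by exact_mod_cast hv))
    (Sol.mono hs (Real.exp_le_exp.2 hle))

end Pool.Agent.H8MT
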