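import Mathlib
import Pool.Agent.H8MT.Pw
import Pool.Agent.H8FC.Sets

/-! # Powers of almost all real numbers and sparse sets; the Fermat-Catalan equation -/

set_option autoImplicit false

namespace Pool.Agent.H8MT

open MeasureTheory Filter

/-- if the sets `S N` have at most `Y / N ^ (B + 3)` elements in each interval of length `Y = N ^ A`, they
have no element near `β N * α ^ N` -/
theorem ae_powers (β : ℕ → ℝ) (hβ : ∀ N, 1 ≤ β N) (B A : ℕ) (S : ℕ → Set ℕ)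
    (hS0 : ∀ N, ∀ y ∈ S N, 1 ≤ y)
    (hS : ∀ᶠ N : ℕ in atTop, ∀ (M : ℕ) (T : Finset ℕ), (∀ y ∈ T, y ∈ S N ∧ M < y ∧ y ≤ M + N ^ A) →
      (T.card : ℝ) ≤ (N : ℝ) ^ A / (N : ℝ) ^ (B + 3)) :
    ∀ᵐ α : ℝ, 1 < α → ∀ᶠ N : ℕ in atTop, ∀ y ∈ S N, ¬ |(y : ℝ) - β N * α ^ N| ≤ (N : ℝ) ^ B := by
  classical
  have hbad : ∀ (a : ℝ), 1 < a → ∀ᵐ x ∂(volume : Measure ℝ), ∀ᶠ N : ℕ in atTop,
      x ∉ {x | x ∈ Set.Icc a (a + 1) ∧ ∃ y ∈ S N, |(y : ℝ) - β N * x ^ N| ≤ (N : ℝ) ^ B} := by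
    intro a ha
    have hgrow : ∀ C : ℕ, ∀ᶠ N : ℕ in atTop, (N : ℝ) ^ C ≤ a ^ (N - 1) := by
      intro C
      have h1 := (isLittleO_pow_const_const_pow_of_one_lt (R := ℝ) C ha)
      have h2 := h1.bound (show (0 : ℝ) < 1 / a by positivity)
      filter_upwards [h2, eventually_ge_atTop 1] with N hN hN1
      rw [Real.norm_of_nonneg (by positivity), Real.norm_of_nonneg (by positivity)] at hN
      refine hN.trans (le_of_eq ?_)
      obtain ⟨m, rfl⟩ : ∃ m, N = m + 1 := ⟨N - 1, by omega⟩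
      rw [Nat.add_sub_cancel, pow_succ]
      field_simp
    have hsum : Summable (fun N : ℕ => 14 * (N : ℝ) ^ (-3 : ℝ)) :=
      (Real.summable_nat_rpow.2 (by norm_num)).mul_left _
    refine bc hsum (fun N => by positivity) ?_
    filter_upwards [hgrow B, hgrow A, eventually_ge_atTop 2, hS] with N hB hAN hN2 hVN
    have hN0 : (0 : ℝ) < N := by exact_mod_cast (show 0 < N by omega)
    have hN1 : (1 : ℝ) ≤ N := by exact_mod_cast (show 1 ≤ N by omega)
    set Y : ℕ := N ^ A with hY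
    have hY1 : 1 ≤ Y := Nat.one_le_pow _ _ (by omega)
    have hYc : (Y : ℝ) = (N : ℝ) ^ A := by rw [hY]; push_cast; rfl
    have hY0 : (0 : ℝ) < (N : ℝ) ^ A := by positivity
    -- pieces
    have hpiece : ∀ i : ℕ, volume {x | x ∈ Set.Icc (a + i / N) (a + i / N + 1 / N) ∧
        ∃ y ∈ S N, |(y : ℝ) - β N * x ^ N| ≤ (N : ℝ) ^ B} ≤
        ENNReal.ofReal (14 * (N : ℝ) ^ (-3 : ℝ) / N) := by
      intro i
      set α₀ : ℝ := a + i / N with hα₀
      have hi0 : (0 : ℝ) ≤ i / N := by positivity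
      have hα₀1 : 1 ≤ α₀ := by linarith
      have hβ0 : 0 < β N := by linarith [hβ N]
      have hlam : (β N * (N * α₀ ^ (N - 1))) * (1 / N) = β N * α₀ ^ (N - 1) := by
        field_simp
      have hbig : a ^ (N - 1) ≤ β N * α₀ ^ (N - 1) := by
        calc a ^ (N - 1) ≤ α₀ ^ (N - 1) := by gcongr; linarith
          _ = 1 * α₀ ^ (N - 1) := (one_mul _).symm
          _ ≤ β N * α₀ ^ (N - 1) := by
              have := hβ N
              gcongr
      refine (vol_bad α₀ (α₀ + 1 / N) (β N * (N * α₀ ^ (N - 1))) ((N : ℝ) ^ B)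
        (fun x => β N * x ^ N) Y ((N : ℝ) ^ A / (N : ℝ) ^ (B + 3)) (S N)
        (by have : 0 < 1 / (N : ℝ) := by positivity
            linarith) (by positivity) hY1 (one_le_pow₀ hN1)
        (by rw [add_sub_cancel_left, hlam]; exact hB.trans hbig)
        (by rw [add_sub_cancel_left, hlam, hYc]; exact hAN.trans hbig) ?_ (by positivity)
        hVN (hS0 N)).trans ?_
      · intro x hx y hy hxy
        obtain ⟨k1, k2⟩ := pow_diff (N := N) (by omega) hα₀1 hx.1 hxy hy.2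
        constructor
        · calc β N * (N * α₀ ^ (N - 1)) * (y - x) = β N * (N * α₀ ^ (N - 1) * (y - x)) := by ring
            _ ≤ β N * (y ^ N - x ^ N) := mul_le_mul_of_nonneg_left k1 hβ0.le
            _ = _ := by ring
        · calc β N * y ^ N - β N * x ^ N = β N * (y ^ N - x ^ N) := by ring
            _ ≤ β N * (3 * (N * α₀ ^ (N - 1)) * (y - x)) := mul_le_mul_of_nonneg_left k2 hβ0.le
            _ = _ := by ring
      · apply ENNReal.ofReal_le_ofReal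
        rw [add_sub_cancel_left, hYc, Real.rpow_neg hN0.le,
          show ((3 : ℝ)) = ((3 : ℕ) : ℝ) by norm_num, Real.rpow_natCast, pow_add]
        apply le_of_eq
        field_simp
    have hcov : {x | x ∈ Set.Icc a (a + 1) ∧ ∃ y ∈ S N, |(y : ℝ) - β N * x ^ N| ≤ (N : ℝ) ^ B} ⊆
        ⋃ i ∈ Finset.range N, {x | x ∈ Set.Icc (a + i / N) (a + i / N + 1 / N) ∧
          ∃ y ∈ S N, |(y : ℝ) - β N * x ^ N| ≤ (N : ℝ) ^ B} := by
      rintro x ⟨⟨hx1, hx2⟩, hx3⟩
      have hx0 : 0 ≤ (x - a) * N := mul_nonneg (by linarith) hN0.le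
      rcases lt_or_ge ⌊(x - a) * N⌋₊ N with hlt | hge
      · refine Set.mem_iUnion₂.2 ⟨⌊(x - a) * N⌋₊, Finset.mem_range.2 hlt, ⟨?_, ?_⟩, hx3⟩
        · have := Nat.floor_le hx0
          rw [← le_sub_iff_add_le', div_le_iff₀ hN0]
          exact this
        · have := Nat.lt_floor_add_one ((x - a) * N)
          rw [add_assoc, ← sub_le_iff_le_add', ← add_div, le_div_iff₀ hN0]
          exact this.le
      · have h5 : (N : ℝ) ≤ (x - a) * N := by
          have := Nat.floor_le hx0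
          have h6 : (N : ℝ) ≤ ⌊(x - a) * N⌋₊ := by exact_mod_cast hge
          linarith
        have h6 : x = a + 1 := by
          have : 1 ≤ x - a := by
            by_contra hcon
            push Not at hcon
            nlinarith
          linarith
        have h7 : (((N - 1 : ℕ) : ℕ) : ℝ) = (N : ℝ) - 1 := by
          rw [Nat.cast_sub (by omega), Nat.cast_one]
        refine Set.mem_iUnion₂.2 ⟨N - 1, Finset.mem_range.2 (by omega), ⟨?_, ?_⟩, hx3⟩
        · rw [h6, h7]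
          have : ((N : ℝ) - 1) / N ≤ 1 := by rw [div_le_one hN0]; linarith
          linarith
        · rw [h6, h7]
          have : ((N : ℝ) - 1) / N + 1 / N = 1 := by field_simp; ring
          linarith
    calc volume {x | x ∈ Set.Icc a (a + 1) ∧ ∃ y ∈ S N, |(y : ℝ) - β N * x ^ N| ≤ (N : ℝ) ^ B}
        ≤ _ := measure_mono hcov
      _ ≤ _ := measure_biUnion_finset_le _ _
      _ ≤ ∑ _i ∈ Finset.range N, ENNReal.ofReal (14 * (N : ℝ) ^ (-3 : ℝ) / N) :=
          Finset.sum_le_sum fun i _ => hpiece i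
      _ = ENNReal.ofReal (14 * (N : ℝ) ^ (-3 : ℝ)) := by
          rw [Finset.sum_const, Finset.card_range, nsmul_eq_mul, ← ENNReal.ofReal_natCast,
            ← ENNReal.ofReal_mul hN0.le]
          congr 1
          field_simp
  have hall : ∀ᵐ x ∂(volume : Measure ℝ), ∀ i j : ℕ, ∀ᶠ N : ℕ in atTop,
      x ∉ {x | x ∈ Set.Icc (1 + 1 / ((i : ℝ) + 1) + j) (1 + 1 / ((i : ℝ) + 1) + j + 1) ∧
        ∃ y ∈ S N, |(y : ℝ) - β N * x ^ N| ≤ (N : ℝ) ^ B} := by
    rw [ae_all_iff]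
    intro i
    rw [ae_all_iff]
    intro j
    refine hbad _ ?_
    have h1 : (0 : ℝ) < 1 / ((i : ℝ) + 1) := by positivity
    have h2 : (0 : ℝ) ≤ j := Nat.cast_nonneg _
    linarith
  filter_upwards [hall] with α hα hα1
  obtain ⟨i, hi⟩ := exists_nat_one_div_lt (show 0 < α - 1 by linarith)
  set j : ℕ := ⌊α - (1 + 1 / ((i : ℝ) + 1))⌋₊ with hj
  have hj1 : (j : ℝ) ≤ α - (1 + 1 / ((i : ℝ) + 1)) := Nat.floor_le (by linarith)
  have hj2 : α - (1 + 1 / ((i : ℝ) + 1)) < j + 1 := Nat.lt_floor_add_one _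
  filter_upwards [hα i j] with N hN y hy hle
  exact hN ⟨⟨by linarith, by linarith⟩, y, hy, hle⟩

open Pool.Agent.H8FC in
theorem Sv.mono {K : ℕ} {W W' : ℝ} {a b : ℕ} (h : Sv K W a b) (hW : W ≤ W') : Sv K W' a b := by
  obtain ⟨x, y, k, c, h1, h2, h3, h4, h5, h6, h7⟩ := h
  exact ⟨x, y, k, c, h1, h2, h3, h4, h5.trans hW, h6.trans hW, h7⟩

open Pool.Agent.H8FC in
theorem fc_powers (K : ℕ) (hK : 2 ≤ K) (β : ℕ → ℝ) (hβ : ∀ N, 1 ≤ β N) (B : ℕ) (V : ℕ → Finset ℕ)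
    (hV1 : ∀ N, ∀ a ∈ V N, 1 ≤ a) (hV : ∀ᶠ N : ℕ in atTop, ((V N).card : ℝ) ≤ (N : ℝ) ^ B) :
    ∀ᵐ α : ℝ, 1 < α → ∀ᶠ N : ℕ in atTop, ∀ b : ℕ, |(b : ℝ) - β N * α ^ N| ≤ (N : ℝ) ^ B →
      ∀ a ∈ V N, ¬ Sv K (Real.exp ((N : ℝ) ^ B)) a b := by
  classical
  obtain ⟨δ, hδ, N₀, h⟩ := few_sets (1 / 8) (by norm_num)
  obtain ⟨A, hA⟩ := exists_nat_ge (16 * ((B : ℝ) + 3) + B / δ + N₀ + 1)
  have hB0 : (0 : ℝ) ≤ B := Nat.cast_nonneg _
  have hN₀0 : (0 : ℝ) ≤ N₀ := Nat.cast_nonneg _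
  have hBδ : 0 ≤ (B : ℝ) / δ := by positivity
  have hA2 : (B : ℝ) ≤ A * δ := by
    have : (B : ℝ) / δ ≤ A := by linarith
    rwa [div_le_iff₀ hδ] at this
  have hA3 : N₀ + 1 ≤ A := by
    have : ((N₀ + 1 : ℕ) : ℝ) ≤ A := by push_cast; linarith
    exact_mod_cast this
  have hK2 : (1 : ℝ) / K ≤ 1 / 2 := by
    apply one_div_le_one_div_of_le (by norm_num)
    exact_mod_cast hK
  have H := ae_powers β hβ B A (fun N => {b | 1 ≤ b ∧ ∃ a ∈ V N, Sv K (Real.exp ((N : ℝ) ^ B)) a b})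
    (fun N y hy => hy.1) (by
      filter_upwards [hV, eventually_ge_atTop 2] with N hVN hN2 M T hT
      have hN0 : (0 : ℝ) < N := by exact_mod_cast (show 0 < N by omega)
      have hN1 : (1 : ℝ) ≤ N := by exact_mod_cast (show 1 ≤ N by omega)
      have hYN : N₀ ≤ N ^ A := by
        have : N₀ < 2 ^ N₀ := Nat.lt_two_pow_self
        calc N₀ ≤ 2 ^ N₀ := this.le
          _ ≤ N ^ N₀ := Nat.pow_le_pow_left hN2 _
          _ ≤ N ^ A := Nat.pow_le_pow_right (by omega) (by omega)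
      have hYc : ((N ^ A : ℕ) : ℝ) = (N : ℝ) ^ A := by push_cast; rfl
      have hpw : ∀ t : ℝ, ((N : ℝ) ^ A) ^ t = (N : ℝ) ^ (A * t) := fun t => by
        rw [← Real.rpow_natCast (N : ℝ) A, ← Real.rpow_mul hN0.le]
      have hWle : Real.exp ((N : ℝ) ^ B) ≤ Real.exp (((N ^ A : ℕ) : ℝ) ^ δ) := by
        apply Real.exp_le_exp.2
        rw [hYc, hpw, ← Real.rpow_natCast (N : ℝ) B]
        exact Real.rpow_le_rpow_of_exponent_le hN1 hA2
      have hcard : ((V N).card : ℝ) ≤ ((N ^ A : ℕ) : ℝ) ^ (1 - 1 / (K : ℝ) - 1 / 8) := by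
        refine hVN.trans ?_
        rw [hYc, hpw, ← Real.rpow_natCast (N : ℝ) B]
        apply Real.rpow_le_rpow_of_exponent_le hN1
        have hA0 : (0 : ℝ) ≤ A := Nat.cast_nonneg _
        nlinarith
      have h1 := (h (N ^ A) hYN K (by omega) M).2 (V N) (hV1 N) hcard T (fun y hy => by
        obtain ⟨⟨-, a, ha, hs⟩, h2, h3⟩ := hT y hy
        exact ⟨h2, h3, a, ha, Sv.mono hs hWle⟩)
      refine h1.trans ?_
      rw [hYc, hpw, le_div_iff₀ (by positivity), ← Real.rpow_natCast (N : ℝ) (B + 3),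
        ← Real.rpow_add hN0, ← Real.rpow_natCast (N : ℝ) A]
      apply Real.rpow_le_rpow_of_exponent_le hN1
      push_cast
      linarith)
  filter_upwards [H] with α hα hα1
  have hgrow : ∀ᶠ N : ℕ in atTop, (N : ℝ) ^ B < α ^ N := by
    have h1 := (isLittleO_pow_const_const_pow_of_one_lt (R := ℝ) B hα1)
    have h2 := h1.bound (show (0 : ℝ) < 1 / 2 by norm_num)
    filter_upwards [h2] with N hN
    rw [Real.norm_of_nonneg (by positivity), Real.norm_of_nonneg (by positivity)] at hN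
    have : 0 < α ^ N := by positivity
    linarith
  filter_upwards [hα hα1, hgrow] with N hN hN0 b hb a ha hs
  refine hN b ⟨?_, a, ha, hs⟩ hb
  by_contra hcon
  have hb0 : b = 0 := by omega
  rw [hb0, Nat.cast_zero, zero_sub, abs_neg] at hb
  have h1 := le_abs_self (β N * α ^ N)
  have h3 : 0 < α ^ N := by positivity
  have h2 : 1 * α ^ N ≤ β N * α ^ N := mul_le_mul_of_nonneg_right (hβ N) h3.le
  linarith

end Pool.Agent.H8MT
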