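import Mathlib
import Pool.Agent.H8MT.Pw
import Pool.Agent.H8SP.Shp

/-! # Multiples of a sequence which grows faster than all powers -/

set_option autoImplicit false

namespace Pool.Agent.H8MT

open MeasureTheory Filter Pool.Agent.H8SP

theorem superpoly (n : ℕ) (hn : 2 ≤ n) (K : ℕ) (hK : n ≤ K) (w : ℕ → ℝ)
    (hw : ∀ C : ℕ, ∀ᶠ N : ℕ in atTop, (N : ℝ) ^ C ≤ w N) :
    ∀ᵐ α : ℝ, 0 < α → ∀ B : ℕ, ∀ᶠ N : ℕ in atTop, ∀ y : ℕ,
      |(y : ℝ) - α * w N| ≤ (N : ℝ) ^ B → ∀ (u : Fin n → ℤ) (v : ℤ),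
        (∀ i, |u i| ≤ (N : ℤ) ^ B) → |v| ≤ (N : ℤ) ^ B →
          ¬ Sol K (Real.exp ((N : ℝ) ^ B)) u v y := by
  classical
  have hK0 : (0 : ℝ) < K := by exact_mod_cast (show 0 < K by omega)
  set θ : ℝ := 1 - ((n : ℝ) - 1) / (K : ℝ) with hθ
  have hθ0 : 0 < θ := by
    rw [hθ, sub_pos, div_lt_one hK0]
    have : (n : ℝ) ≤ K := by exact_mod_cast hK
    linarith
  obtain ⟨δ, hδ, h⟩ := linear n hn K (by omega) (θ / 4) (θ / 4) (θ / 4) (by positivity)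
    (by positivity) (by positivity) (by linarith)
  suffices H : ∀ B : ℕ, ∀ᵐ α : ℝ, 0 < α → ∀ᶠ N : ℕ in atTop, ∀ y : ℕ,
      |(y : ℝ) - α * w N| ≤ (N : ℝ) ^ B → ∀ (u : Fin n → ℤ) (v : ℤ),
        (∀ i, |u i| ≤ (N : ℤ) ^ B) → |v| ≤ (N : ℤ) ^ B →
          ¬ Sol K (Real.exp ((N : ℝ) ^ B)) u v y by
    have H' := ae_all_iff.2 H
    filter_upwards [H'] with α hα h0 B
    exact hα B h0
  intro B
  obtain ⟨A, hA⟩ := exists_nat_ge (((B + 2) * (n + 1) + 2) / (θ / 4) + B / δ)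
  have hA0 : (0 : ℝ) ≤ ((B + 2) * (n + 1) + 2) / (θ / 4) := by positivity
  have hA0' : (0 : ℝ) ≤ B / δ := by positivity
  have hA1 : ((B : ℝ) + 2) * (n + 1) + 2 ≤ A * (θ / 4) := by
    have : (((B : ℝ) + 2) * (n + 1) + 2) / (θ / 4) ≤ A := by linarith
    rwa [div_le_iff₀ (by positivity)] at this
  have hA2 : (B : ℝ) ≤ A * δ := by
    have : (B : ℝ) / δ ≤ A := by linarith
    rwa [div_le_iff₀ hδ] at this
  have hA3 : (B : ℝ) ≤ A * (θ / 4) := by
    have : (0 : ℝ) ≤ B := Nat.cast_nonneg _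
    have h2 : (0 : ℝ) ≤ n := Nat.cast_nonneg _
    nlinarith
  set Y : ℕ → ℝ := fun N => min (max 1 ((N : ℝ) ^ A)) (max 1 (w N)) with hY
  have hY1 : ∀ N, 1 ≤ Y N := fun N => le_min (le_max_left _ _) (le_max_left _ _)
  have hYv : ∀ N, Y N ≤ max 1 (w N) := fun N => min_le_right _ _
  have hYe : ∀ᶠ N : ℕ in atTop, Y N = (N : ℝ) ^ A ∧ max 1 (w N) = w N := by
    filter_upwards [hw A, eventually_ge_atTop 1] with N hN hN1
    have h1 : (1 : ℝ) ≤ (N : ℝ) ^ A := one_le_pow₀ (by exact_mod_cast hN1)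
    refine ⟨?_, max_eq_right (h1.trans hN)⟩
    simp only [hY]
    rw [max_eq_right h1, max_eq_right (h1.trans hN), min_eq_left hN]
  have hpw : ∀ (N : ℕ) (t : ℝ), 1 ≤ N → ((N : ℝ) ^ A) ^ t = (N : ℝ) ^ (A * t) := by
    intro N t hN
    rw [← Real.rpow_natCast (N : ℝ) A, ← Real.rpow_mul (Nat.cast_nonneg _)]
  have hge : ∀ (N : ℕ) (t : ℝ), 1 ≤ N → (B : ℝ) ≤ A * t → (N : ℝ) ^ B ≤ ((N : ℝ) ^ A) ^ t := by
    intro N t hN ht
    rw [hpw N t hN, ← Real.rpow_natCast (N : ℝ) B]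
    exact Real.rpow_le_rpow_of_exponent_le (by exact_mod_cast hN) ht
  have hsum : Summable (fun N => (Y N) ^ (-(θ / 4))) := by
    refine summable_of_isBigO_nat (Real.summable_nat_rpow.2 (show (-2 : ℝ) < -1 by norm_num)) ?_
    refine Asymptotics.IsBigO.of_bound 1 ?_
    filter_upwards [hYe, eventually_ge_atTop 1] with N hN hN1
    have hNr : (1 : ℝ) ≤ N := by exact_mod_cast hN1
    rw [hN.1, hpw N _ hN1, one_mul, Real.norm_of_nonneg (by positivity),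
      Real.norm_of_nonneg (by positivity)]
    apply Real.rpow_le_rpow_of_exponent_le hNr
    have h2 : (0 : ℝ) ≤ ((B : ℝ) + 2) * (n + 1) := by positivity
    linarith
  have hmain := h (fun N => max 1 (w N)) Y hY1 hYv hsum
    (fun N => if ((box n (N ^ B)).card : ℝ) ≤ (Y N) ^ (θ / 4) then box n (N ^ B) else ∅)
    (fun N => by
      split_ifs with hc
      · exact hc
      · simp only [Finset.card_empty, Nat.cast_zero]
        exact Real.rpow_nonneg (by linarith [hY1 N]) _)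
  filter_upwards [hmain] with α hα h0
  filter_upwards [hα h0, hYe, eventually_ge_atTop 2] with N hN hNe hN2 y hy u v hu hv hs
  have hNr : (2 : ℝ) ≤ N := by exact_mod_cast hN2
  have hN1 : 1 ≤ N := by omega
  have hcard : ((box n (N ^ B)).card : ℝ) ≤ (Y N) ^ (θ / 4) := by
    have h1 := card_box_le n (N ^ B) (Nat.one_le_pow _ _ (by omega))
    have h2 : (3 : ℝ) ≤ (N : ℝ) ^ 2 := by nlinarith
    calc ((box n (N ^ B)).card : ℝ) ≤ 3 ^ (n + 1) * ((N ^ B : ℕ) : ℝ) ^ (n + 1) := h1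
      _ ≤ ((N : ℝ) ^ 2) ^ (n + 1) * ((N ^ B : ℕ) : ℝ) ^ (n + 1) := by gcongr
      _ = (N : ℝ) ^ (((B : ℝ) + 2) * (n + 1)) := by
          push_cast
          rw [← pow_mul, ← pow_mul, ← pow_add, ← Real.rpow_natCast]
          congr 1
          push_cast
          ring
      _ ≤ (N : ℝ) ^ (A * (θ / 4)) :=
          Real.rpow_le_rpow_of_exponent_le (by linarith) (by linarith)
      _ = _ := by rw [hNe.1, hpw N _ hN1]
  have hN' := hN y (by
    rw [hNe.2, hNe.1]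
    exact hy.trans (hge N _ hN1 hA3)) (u, v)
  rw [if_pos hcard] at hN'
  refine hN' (mem_box (by exact_mod_cast hu) (by exact_mod_cast hv)) (Sol.mono hs ?_)
  apply Real.exp_le_exp.2
  rw [hNe.1]
  exact hge N _ hN1 hA2

/-- the bound `n ≤ K` is sharp -/
theorem sharp (n : ℕ) (hn : 2 ≤ n) (y : ℕ) (hy : 1 ≤ y) :
    Sol (n - 1) ((1 + (y : ℝ)) ^ (n - 1)) (bin n 1) (-1) y := by
  have h := sol_bin n 1 1 y (1 + y) hn le_rfl hy (Nat.coprime_one_left y) (pow_one _).symm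
    ((1 + (y : ℝ)) ^ (n - 1)) (by rw [Nat.cast_one])
  rwa [mul_one] at h

end Pool.Agent.H8MT
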